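import Mathlib

/-!
Power series in a set of variables, the sum of the coefficients over a finite set of variables
(`cut`, a ring homomorphism to power series in one variable) and elementary symmetric series.
-/

namespace Pool.Agent.Q260.Sok

open Finset

variable {σ : Type*} {R : Type*}

open Classical in
/-- The elementary symmetric series `e_k` of the variables `X_s`, `s ∈ V`: the sum of all
squarefree monomials of degree `k` in these variables (zero for negative `k`). -/
noncomputable def elem (R : Type*) [Zero R] [One R] (V : Set σ) (k : ℤ) : MvPowerSeries σ R :=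
  fun u => if (∀ s, u s ≤ 1) ∧ (∀ s, s ∉ V → u s = 0) ∧ ((u.degree : ℕ) : ℤ) = k then 1 else 0

/-- The sum of the coefficients of `f` at the monomials of degree `n` in the variables of `S`,
for all `n`. -/
noncomputable def cut [DecidableEq σ] [CommRing R] (S : Finset σ) (f : MvPowerSeries σ R) : PowerSeries R :=
  PowerSeries.mk fun n => ∑ u ∈ S.finsuppAntidiag n, MvPowerSeries.coeff u f

section
variable [DecidableEq σ] [CommRing R]

theorem coeff_cut (S : Finset σ) (f : MvPowerSeries σ R) (n : ℕ) :
    PowerSeries.coeff n (cut S f) = ∑ u ∈ S.finsuppAntidiag n, MvPowerSeries.coeff u f := by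
  rw [cut, PowerSeries.coeff_mk]

theorem cut_add (S : Finset σ) (f g : MvPowerSeries σ R) :
    cut S (f + g) = cut S f + cut S g := by
  ext n
  rw [map_add, coeff_cut, coeff_cut, coeff_cut, ← Finset.sum_add_distrib]
  exact Finset.sum_congr rfl fun u _ => by rw [map_add]

theorem cut_zero (S : Finset σ) : cut S (0 : MvPowerSeries σ R) = 0 := by
  ext n
  rw [coeff_cut]
  simp

theorem cut_one (S : Finset σ) : cut S (1 : MvPowerSeries σ R) = 1 := by
  ext n
  rw [coeff_cut, PowerSeries.coeff_one]
  simp only [MvPowerSeries.coeff_one]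
  by_cases hn : n = 0
  · subst hn
    rw [Finset.finsuppAntidiag_zero]
    simp
  · rw [if_neg hn]
    apply Finset.sum_eq_zero
    intro u hu
    rw [if_neg]
    rintro rfl
    rw [Finset.mem_finsuppAntidiag] at hu
    apply hn
    rw [← hu.1]
    simp

theorem cut_mul (S : Finset σ) (f g : MvPowerSeries σ R) :
    cut S (f * g) = cut S f * cut S g := by
  ext n
  rw [PowerSeries.coeff_mul, coeff_cut]
  simp only [MvPowerSeries.coeff_mul, coeff_cut, Finset.sum_mul_sum, ← Finset.sum_product']
  rw [Finset.sum_sigma', Finset.sum_sigma']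
  refine Finset.sum_bij'
    (fun x _ => ⟨(∑ s ∈ S, x.2.1 s, ∑ s ∈ S, x.2.2 s), x.2⟩)
    (fun y _ => ⟨y.2.1 + y.2.2, y.2⟩) ?_ ?_ ?_ ?_ ?_
  · rintro ⟨u, v, w⟩ h
    simp only [Finset.mem_sigma, Finset.mem_finsuppAntidiag, Finset.HasAntidiagonal.mem_antidiagonal,
      Finset.mem_product] at h ⊢
    obtain ⟨⟨h1, h2⟩, h3⟩ := h
    subst h3
    refine ⟨?_, ⟨trivial, ?_⟩, trivial, ?_⟩
    · rw [← h1, ← Finset.sum_add_distrib]
      rfl
    · intro s hs
      apply h2
      rw [Finsupp.mem_support_iff] at hs ⊢
      rw [Finsupp.add_apply]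
      omega
    · intro s hs
      apply h2
      rw [Finsupp.mem_support_iff] at hs ⊢
      rw [Finsupp.add_apply]
      omega
  · rintro ⟨⟨a, b⟩, v, w⟩ h
    simp only [Finset.mem_sigma, Finset.mem_finsuppAntidiag, Finset.HasAntidiagonal.mem_antidiagonal,
      Finset.mem_product] at h ⊢
    obtain ⟨h1, ⟨h2, h3⟩, h4, h5⟩ := h
    refine ⟨⟨?_, ?_⟩, trivial⟩
    · rw [← h1, ← h2, ← h4, ← Finset.sum_add_distrib]
      rfl
    · exact Finsupp.support_add.trans (Finset.union_subset h3 h5)
  · rintro ⟨u, v, w⟩ h
    simp only [Finset.mem_sigma, Finset.mem_finsuppAntidiag, Finset.HasAntidiagonal.mem_antidiagonal] at h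
    obtain ⟨⟨h1, h2⟩, h3⟩ := h
    simp only [h3]
  · rintro ⟨⟨a, b⟩, v, w⟩ h
    simp only [Finset.mem_sigma, Finset.mem_finsuppAntidiag, Finset.HasAntidiagonal.mem_antidiagonal,
      Finset.mem_product] at h
    obtain ⟨h1, ⟨h2, h3⟩, h4, h5⟩ := h
    subst h2 h4
    rfl
  · rintro ⟨u, v, w⟩ h
    rfl

/-- `cut S` as a ring homomorphism. -/
noncomputable def cutHom (S : Finset σ) : MvPowerSeries σ R →+* PowerSeries R where
  toFun := cut S
  map_one' := cut_one S
  map_mul' := cut_mul S
  map_zero' := cut_zero S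
  map_add' := cut_add S

omit [DecidableEq σ] in
theorem coeff_elem (V : Set σ) (k : ℤ) (u : σ →₀ ℕ)
    [Decidable ((∀ s, u s ≤ 1) ∧ (∀ s, s ∉ V → u s = 0) ∧ ((u.degree : ℕ) : ℤ) = k)] :
    MvPowerSeries.coeff u (elem R V k) =
      if (∀ s, u s ≤ 1) ∧ (∀ s, s ∉ V → u s = 0) ∧ ((u.degree : ℕ) : ℤ) = k then 1 else 0 := by
  by_cases h : (∀ s, u s ≤ 1) ∧ (∀ s, s ∉ V → u s = 0) ∧ ((u.degree : ℕ) : ℤ) = k
  · rw [if_pos h]
    exact if_pos h
  · rw [if_neg h]
    exact if_neg h

theorem cut_elem (S T : Finset σ) (V : Set σ) (hT : ∀ s, s ∈ T ↔ s ∈ S ∧ s ∈ V) (k : ℕ) :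
    cut S (elem R V (k : ℤ)) = PowerSeries.monomial k ((T.card.choose k : ℕ) : R) := by
  classical
  ext n
  rw [coeff_cut, PowerSeries.coeff_monomial]
  simp only [coeff_elem]
  rw [Finset.sum_ite, Finset.sum_const_zero, add_zero, Finset.sum_const, nsmul_eq_mul, mul_one]
  have hdeg : ∀ u ∈ S.finsuppAntidiag n, u.degree = n := by
    intro u hu
    rw [Finset.mem_finsuppAntidiag] at hu
    rw [← hu.1, Finsupp.degree_apply]
    exact Finset.sum_subset hu.2 fun s _ hs => by simpa using hs
  split_ifs with hn
  · subst hn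
    congr 1
    rw [← Finset.card_powersetCard]
    refine Finset.card_bij (fun u _ => u.support) ?_ ?_ ?_
    · intro u hu
      rw [Finset.mem_filter] at hu
      obtain ⟨h1, h2, h3, h4⟩ := hu
      have h5 := hdeg u h1
      rw [Finset.mem_finsuppAntidiag] at h1
      rw [Finset.mem_powersetCard]
      constructor
      · intro s hs
        rw [hT]
        refine ⟨h1.2 hs, ?_⟩
        by_contra hV
        rw [Finsupp.mem_support_iff] at hs
        exact hs (h3 s hV)
      · rw [← h5, Finsupp.degree_apply, Finset.card_eq_sum_ones]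
        apply Finset.sum_congr rfl
        intro s hs
        rw [Finsupp.mem_support_iff] at hs
        have := h2 s
        omega
    · intro u hu v hv huv
      rw [Finset.mem_filter] at hu hv
      ext s
      have h1 := hu.2.1 s
      have h2 := hv.2.1 s
      have h3 : s ∈ u.support ↔ s ∈ v.support := by rw [huv]
      rw [Finsupp.mem_support_iff, Finsupp.mem_support_iff] at h3
      omega
    · intro U hU
      rw [Finset.mem_powersetCard] at hU
      have hval : ∀ s, (Finsupp.indicator U (fun _ _ => (1 : ℕ))) s = if s ∈ U then 1 else 0 := by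
        intro s
        rw [Finsupp.indicator_apply]
        simp
      have hsupp : (Finsupp.indicator U (fun _ _ => (1 : ℕ))).support = U := by
        ext s
        rw [Finsupp.mem_support_iff, hval]
        simp
      have hsum : (Finsupp.indicator U (fun _ _ => (1 : ℕ))).degree = n := by
        rw [Finsupp.degree_apply, hsupp, ← hU.2, Finset.card_eq_sum_ones]
        apply Finset.sum_congr rfl
        intro s hs
        rw [hval, if_pos hs]
      refine ⟨Finsupp.indicator U (fun _ _ => (1 : ℕ)), ?_, hsupp⟩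
      rw [Finset.mem_filter, Finset.mem_finsuppAntidiag]
      refine ⟨⟨?_, ?_⟩, ?_, ?_, ?_⟩
      · rw [← hsum, Finsupp.degree_apply]
        symm
        apply Finset.sum_subset
        · rw [hsupp]
          intro s hs
          exact ((hT s).1 (hU.1 hs)).1
        · intro s _ hs
          simpa using hs
      · rw [hsupp]
        intro s hs
        exact ((hT s).1 (hU.1 hs)).1
      · intro s
        rw [hval]
        split_ifs <;> omega
      · intro s hs
        rw [hval, if_neg]
        intro h
        exact hs ((hT s).1 (hU.1 h)).2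
      · rw [hsum]
  · have : (S.finsuppAntidiag n).filter (fun u => (∀ s, u s ≤ 1) ∧ (∀ s, s ∉ V → u s = 0) ∧
        ((u.degree : ℕ) : ℤ) = (k : ℤ)) = ∅ := by
      rw [Finset.filter_eq_empty_iff]
      intro u hu h
      have h1 := hdeg u hu
      have h2 := h.2.2
      rw [h1] at h2
      exact hn (by exact_mod_cast h2)
    rw [this]
    simp

end

/-- If the sum of the coefficients of degree `n` over `S` is negative then some coefficient is
negative. -/
theorem exists_neg [DecidableEq σ] (S : Finset σ) (f : MvPowerSeries σ ℤ) (n : ℕ)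
    (h : PowerSeries.coeff n (cut S f) < 0) : ∃ u, MvPowerSeries.coeff u f < 0 := by
  by_contra hc
  push Not at hc
  rw [coeff_cut] at h
  exact absurd (Finset.sum_nonneg fun u _ => hc u) (not_le.2 h)

end Pool.Agent.Q260.Sok
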