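import Pool.Agent.Q260.Sok.Basic

/-!
A Hadamard product of two 3 by 3 Jacobi-Trudi matrices whose determinant has a negative
coefficient.
-/

namespace Pool.Agent.Q260.Sok

open Finset

variable {σ : Type*}

/-- The Jacobi-Trudi matrix `(e_{λ_i - μ_j - i + j})` in the variables of `V`. -/
noncomputable def JT (R : Type*) [Zero R] [One R] (V : Set σ) {n : ℕ} (lam mu : Fin n → ℕ) :
    Matrix (Fin n) (Fin n) (MvPowerSeries σ R) :=
  fun i j => elem R V ((lam i : ℤ) - mu j - (i : ℕ) + (j : ℕ))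

theorem ch20 : Nat.choose 60 20 = 4191844505805495 := by
  rw [Nat.choose_eq_descFactorial_div_factorial]
  norm_num

theorem ch23 : Nat.choose 60 23 = 23385332420868600 := by
  rw [Nat.choose_eq_descFactorial_div_factorial]
  norm_num

theorem ch24 : Nat.choose 60 24 = 36052387482172425 := by
  rw [Nat.choose_eq_descFactorial_div_factorial]
  norm_num

theorem ch26 : Nat.choose 60 26 = 69886166503903470 := by
  rw [Nat.choose_eq_descFactorial_div_factorial]
  norm_num

theorem ch27 : Nat.choose 60 27 = 88004802264174740 := by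
  rw [Nat.choose_eq_descFactorial_div_factorial]
  norm_num

theorem ch28 : Nat.choose 60 28 = 103719945525634515 := by
  rw [Nat.choose_eq_descFactorial_div_factorial]
  norm_num

theorem ch29 : Nat.choose 60 29 = 114449595062769120 := by
  rw [Nat.choose_eq_descFactorial_div_factorial]
  norm_num

theorem ch30 : Nat.choose 60 30 = 118264581564861424 := by
  rw [Nat.choose_eq_descFactorial_div_factorial]
  norm_num

theorem ch31 : Nat.choose 60 31 = 114449595062769120 := by
  rw [Nat.choose_eq_descFactorial_div_factorial]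
  norm_num

theorem ch33 : Nat.choose 60 33 = 88004802264174740 := by
  rw [Nat.choose_eq_descFactorial_div_factorial]
  norm_num

theorem ch34 : Nat.choose 60 34 = 69886166503903470 := by
  rw [Nat.choose_eq_descFactorial_div_factorial]
  norm_num

theorem ch37 : Nat.choose 60 37 = 23385332420868600 := by
  rw [Nat.choose_eq_descFactorial_div_factorial]
  norm_num

/-- The indices in the first matrix. -/
def ixA : Fin 3 → Fin 3 → ℕ := ![![24, 27, 28], ![23, 26, 27], ![20, 23, 24]]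

/-- The indices in the second matrix. -/
def ixB : Fin 3 → Fin 3 → ℕ := ![![33, 34, 37], ![30, 31, 34], ![29, 30, 33]]

theorem JT_A (R : Type*) [Zero R] [One R] (V : Set σ) (i j : Fin 3) :
    JT R V ![26, 26, 24] ![2, 0, 0] i j = elem R V ((ixA i j : ℕ) : ℤ) := by
  rw [JT]
  congr 1
  fin_cases i <;> fin_cases j <;> rfl

theorem JT_B (R : Type*) [Zero R] [One R] (V : Set σ) (i j : Fin 3) :
    JT R V ![35, 33, 33] ![2, 2, 0] i j = elem R V ((ixB i j : ℕ) : ℤ) := by
  rw [JT]
  congr 1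
  fin_cases i <;> fin_cases j <;> rfl

theorem cut_entry [DecidableEq σ] (Vx Vy : Set σ) (S Sx Sy : Finset σ)
    (hx : ∀ s, s ∈ Sx ↔ s ∈ S ∧ s ∈ Vx) (hy : ∀ s, s ∈ Sy ↔ s ∈ S ∧ s ∈ Vy)
    (cx : Sx.card = 60) (cy : Sy.card = 60) (a b : ℕ) :
    cutHom S (elem ℤ Vx (a : ℤ) * elem ℤ Vy (b : ℤ)) =
      PowerSeries.monomial (a + b) (((Nat.choose 60 a : ℕ) : ℤ) * ((Nat.choose 60 b : ℕ) : ℤ)) := by
  rw [map_mul]
  show cut S _ * cut S _ = _
  rw [cut_elem S Sx Vx hx, cut_elem S Sy Vy hy, PowerSeries.monomial_mul_monomial, cx, cy]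

/-- The determinant of the Hadamard product of the Jacobi-Trudi matrices of `(26,26,24)/(2)` and
`(35,33,33)/(2,2)` has a negative coefficient. -/
theorem det_neg (Vx Vy : Set σ) (Sx Sy : Finset σ) (hd : Disjoint Vx Vy)
    (hx : ∀ s ∈ Sx, s ∈ Vx) (hy : ∀ s ∈ Sy, s ∈ Vy) (cx : Sx.card = 60) (cy : Sy.card = 60) :
    ∃ u, MvPowerSeries.coeff u (Matrix.det (Matrix.of fun i j : Fin 3 =>
      JT ℤ Vx ![26, 26, 24] ![2, 0, 0] i j * JT ℤ Vy ![35, 33, 33] ![2, 2, 0] i j)) < 0 := by
  classical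
  rw [Set.disjoint_left] at hd
  have h1 : ∀ s, s ∈ Sx ↔ s ∈ Sx ∪ Sy ∧ s ∈ Vx := by
    intro s
    rw [Finset.mem_union]
    constructor
    · intro h
      exact ⟨Or.inl h, hx s h⟩
    · rintro ⟨h | h, h'⟩
      · exact h
      · exact absurd (hy s h) (hd h')
  have h2 : ∀ s, s ∈ Sy ↔ s ∈ Sx ∪ Sy ∧ s ∈ Vy := by
    intro s
    rw [Finset.mem_union]
    constructor
    · intro h
      exact ⟨Or.inr h, hy s h⟩
    · rintro ⟨h | h, h'⟩
      · exact absurd h' (hd (hx s h))
      · exact h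
  apply exists_neg (Sx ∪ Sy) _ 171
  show PowerSeries.coeff 171 (cutHom (Sx ∪ Sy) _) < 0
  rw [RingHom.map_det, Matrix.det_fin_three]
  simp only [RingHom.mapMatrix_apply, Matrix.map_apply, Matrix.of_apply, JT_A, JT_B,
    cut_entry Vx Vy (Sx ∪ Sy) Sx Sy h1 h2 cx cy]
  simp only [ixA, ixB, Matrix.cons_val_zero, Matrix.cons_val_one, Matrix.cons_val,
    PowerSeries.monomial_mul_monomial, map_sub, map_add, PowerSeries.coeff_monomial,
    ch20, ch23, ch24, ch26, ch27, ch28, ch29, ch30, ch31, ch33, ch34, ch37]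
  norm_num

end Pool.Agent.Q260.Sok
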